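import Pool.Agent.W836.SH.Stm

/-! # Shifted Heller constant: the final case -/

open scoped Classical

namespace Pool.Agent.W490.SH

open Pool.Agent.W836.SH

namespace Afin

variable {ι : Type}

/-- a simplex of unit vectors -/
theorem simplex_bound {F : Finset (Finset ι)} {o : ι → ℝ} {τ : ℝ} (hFW : FW τ o F) (k : ℕ)
    (r : Fin k → ι) (S : Fin (k + 1) → Finset ι) (hS : ∀ j, S j ∈ F)
    (h : ∀ i j, r i ∈ S j ↔ j = i.succ) (ho : ∀ i, o (r i) = τ) : (k : ℝ) * τ - 1 ≤ τ := by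
  have hdet : (IM r S).det = 1 := by
    rw [Matrix.det_of_isUpperTriangular]
    · apply Finset.prod_eq_one
      intro i _
      refine Fin.cases ?_ (fun i => ?_) i
      · simp [IM]
      · simp [IM, h]
    · intro i j hij
      simp only [id] at hij
      revert hij
      refine Fin.cases ?_ (fun i => ?_) i
      · intro hij
        exact absurd hij (Fin.not_lt_zero j)
      · intro hij
        simp [IM, h, hij.ne]
  have h1 := hFW k r S (Fin.cons (1 - k * τ) (fun _ => τ)) hS ?_ ?_ (by rw [hdet]; simp)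
  · have h2 : max (-((Fin.cons (1 - k * τ) (fun _ => τ) : Fin (k + 1) → ℝ) 0)) 0 ≤
        ∑ j : Fin (k + 1), max (-((Fin.cons (1 - k * τ) (fun _ => τ) : Fin (k + 1) → ℝ) j)) 0 :=
      Finset.single_le_sum (f := fun j : Fin (k + 1) =>
        max (-((Fin.cons (1 - k * τ) (fun _ => τ) : Fin (k + 1) → ℝ) j)) 0)
        (fun j _ => le_max_right _ _) (Finset.mem_univ 0)
    have h3 := le_max_left (-((Fin.cons (1 - k * τ) (fun _ => τ) : Fin (k + 1) → ℝ) 0)) 0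
    simp only [Fin.cons_zero] at h2 h3
    linarith
  · intro i
    simp only [h, mul_ite, mul_one, mul_zero, Finset.sum_ite_eq', Finset.mem_univ, if_true,
      Fin.cons_succ, ho]
  · rw [Fin.sum_univ_succ]
    simp

/-- the matrix of determinant two -/
theorem no_four {F : Finset (Finset ι)} (hFV : FV F) (a i g : ι) (S T U V : Finset ι)
    (hS : S ∈ F) (hT : T ∈ F) (hU : U ∈ F) (hV : V ∈ F) (s1 : a ∈ S) (s2 : i ∈ S) (s3 : g ∈ S)
    (t1 : a ∈ T) (t2 : i ∉ T) (t3 : g ∉ T) (u1 : a ∉ U) (u2 : i ∈ U) (u3 : g ∉ U)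
    (v1 : a ∉ V) (v2 : i ∉ V) (v3 : g ∈ V) : False := by
  have h := hFV 3 ![a, i, g] ![S, T, U, V] (by
    intro j
    fin_cases j <;> simp [hS, hT, hU, hV])
  have h1 : IM ![a, i, g] ![S, T, U, V] = !![1, 1, 1, 1; 1, 1, 0, 0; 1, 0, 1, 0; 1, 0, 0, 1] := by
    ext x y
    refine Fin.cases ?_ (fun x => ?_) x
    · fin_cases y <;> simp [IM]
    · simp only [IM, Matrix.of_apply, Fin.cons_succ]
      fin_cases x <;> fin_cases y <;> simp [*]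
  rw [h1] at h
  have h2 : (!![1, 1, 1, 1; 1, 1, 0, 0; 1, 0, 1, 0; 1, 0, 0, 1] :
      Matrix (Fin 4) (Fin 4) ℝ).det = -2 := by
    simp [Matrix.det_succ_row_zero, Fin.sum_univ_succ, Fin.succAbove]
    norm_num
  rw [h2] at h
  norm_num at h

/-- the standing hypotheses -/
structure Hyp (I : Finset ι) (F : Finset (Finset ι)) (o : ι → ℝ) (τ : ℝ) : Prop where
  h0 : 0 < τ
  h1 : τ < 1 / 2
  fg : FG τ o F
  sub : ∀ S ∈ F, S ⊆ I
  ho : ∀ i ∈ I, o i = τ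
  hZ : ∀ i ∈ I, 3 ≤ (Zf i F).card

variable {I : Finset ι} {F : Finset (Finset ι)} {o : ι → ℝ} {τ : ℝ}

theorem mem_Zf {i : ι} {Y : Finset ι} : Y ∈ Zf i F ↔ Y ∈ F ∧ i ∉ Y ∧ insert i Y ∈ F := by
  unfold Zf
  rw [Finset.mem_filter]

/-- the facts about the sets `Zf i F` -/
theorem facts (hAP : S_AP) (H : Hyp I F o τ) {i : ι} (hi : i ∈ I) :
    1 / 3 ≤ τ ∧ (Zf i F).card = 3 ∧
    (∀ a, ∀ Y ∈ Zf i F, ∀ Y' ∈ Zf i F, a ∈ Y → a ∉ Y' → ∀ Y'' ∈ Zf i F, a ∈ Y'' → Y'' = Y) ∧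
    (∀ a b, ∀ Y ∈ Zf i F, ∀ Y' ∈ Zf i F, a ∈ Y → a ∉ Y' → b ∈ Y' → b ∉ Y →
      ∀ S ∈ F, ¬ (a ∈ S ∧ b ∈ S)) := by
  obtain ⟨-, e2, e3, e4, e5⟩ := hAP ι F o τ i H.h0 H.h1 H.fg (H.ho i hi).ge (H.hZ i hi) (by
    intro a Y hY Y' _ ha _
    have haI : a ∈ I := H.sub Y (mem_Zf.1 hY).1 ha
    rw [H.ho i hi, H.ho a haI]
    exact ⟨le_rfl, H.h1.le⟩)
  exact ⟨e2, e3, fun a Y hY Y' hY' h1 h2 => (e4 a Y hY Y' hY' h1 h2).2, e5⟩

/-- the other members -/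
theorem others (hAP : S_AP) (H : Hyp I F o τ) {i : ι} (hi : i ∈ I) {a : ι} {Ya : Finset ι}
    (hYa : Ya ∈ Zf i F) (ha : a ∈ Ya) (hn : ∃ Y ∈ Zf i F, a ∉ Y) :
    ∃ (b : ι) (Yb Yc : Finset ι), Yb ∈ Zf i F ∧ Yc ∈ Zf i F ∧ a ∉ Yb ∧ a ∉ Yc ∧ b ∈ Yb ∧
      b ∉ Ya ∧ b ∉ Yc ∧ ∀ Y ∈ Zf i F, Y = Ya ∨ Y = Yb ∨ Y = Yc := by
  obtain ⟨-, h3, hu, -⟩ := facts hAP H hi
  obtain ⟨Y', hY', haY'⟩ := hn
  have hc : ((Zf i F).erase Ya).card = 2 := by
    rw [Finset.card_erase_of_mem hYa, h3]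
  obtain ⟨Y₁, Y₂, hne, he⟩ := Finset.card_eq_two.1 hc
  have hm : ∀ Y, Y ∈ Zf i F → Y = Ya ∨ Y = Y₁ ∨ Y = Y₂ := by
    intro Y hY
    by_cases h : Y = Ya
    · exact Or.inl h
    · right
      have : Y ∈ (Zf i F).erase Ya := Finset.mem_erase.2 ⟨h, hY⟩
      rw [he] at this
      simpa using this
  have h₁ : Y₁ ∈ (Zf i F).erase Ya := by rw [he]; simp
  have h₂ : Y₂ ∈ (Zf i F).erase Ya := by rw [he]; simp
  rw [Finset.mem_erase] at h₁ h₂
  have ha₁ : a ∉ Y₁ := fun h => h₁.1 (hu a Ya hYa Y' hY' ha haY' Y₁ h₁.2 h)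
  have ha₂ : a ∉ Y₂ := fun h => h₂.1 (hu a Ya hYa Y' hY' ha haY' Y₂ h₂.2 h)
  have key : (∃ b, b ∈ Y₁ ∧ b ∉ Y₂) ∨ (∃ b, b ∈ Y₂ ∧ b ∉ Y₁) := by
    by_contra hcon
    push Not at hcon
    exact hne (Finset.ext fun b => ⟨hcon.1 b, hcon.2 b⟩)
  rcases key with ⟨b, hb₁, hb₂⟩ | ⟨b, hb₂, hb₁⟩
  · refine ⟨b, Y₁, Y₂, h₁.2, h₂.2, ha₁, ha₂, hb₁, ?_, hb₂, hm⟩
    intro h
    exact h₁.1 (hu b Y₁ h₁.2 Y₂ h₂.2 hb₁ hb₂ Ya hYa h).symm
  · refine ⟨b, Y₂, Y₁, h₂.2, h₁.2, ha₂, ha₁, hb₂, ?_, hb₁, ?_⟩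
    · intro h
      exact h₂.1 (hu b Y₂ h₂.2 Y₁ h₁.2 hb₂ hb₁ Ya hYa h).symm
    · intro Y hY
      rcases hm Y hY with h | h | h
      · exact Or.inl h
      · exact Or.inr (Or.inr h)
      · exact Or.inr (Or.inl h)

/-- there is a non-constant row -/
theorem ex_nb (H : Hyp I F o τ) {i : ι} (hi : i ∈ I) :
    ∃ (a : ι) (Y Y' : Finset ι), Y ∈ Zf i F ∧ Y' ∈ Zf i F ∧ a ∈ Y ∧ a ∉ Y' := by
  have h3 := H.hZ i hi
  obtain ⟨Y₁, h₁, Y₂, h₂, hne⟩ := Finset.one_lt_card.1 (show 1 < (Zf i F).card by omega)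
  by_contra hcon
  push Not at hcon
  exact hne (Finset.ext fun b => ⟨hcon b Y₁ Y₂ h₁ h₂, hcon b Y₂ Y₁ h₂ h₁⟩)

/-- rows in a common member are non-constant -/
theorem nb (hAP : S_AP) (hAE : S_AE) (H : Hyp I F o τ) {i j : ι} (hne : j ≠ i)
    {S : Finset ι} (hS : S ∈ F) (hiS : i ∈ S) (hjS : j ∈ S) :
    ∃ (Y Y' : Finset ι), Y ∈ Zf i F ∧ Y' ∈ Zf i F ∧ j ∈ Y ∧ j ∉ Y' := by
  by_contra hcon
  push Not at hcon
  have hi : i ∈ I := H.sub S hS hiS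
  have hj : j ∈ I := H.sub S hS hjS
  obtain ⟨h13, -, hu, hnev⟩ := facts hAP H hi
  obtain ⟨a, Ya, Y', hYa, hY', ha, ha'⟩ := ex_nb H hi
  obtain ⟨b, Yb, Yc, hYb, hYc, hab, hac, hb, hba, hbc, hall⟩ :=
    others hAP H hi hYa ha ⟨Y', hY', ha'⟩
  have hnn : ∀ S ∈ F, ¬ (a ∈ S ∧ b ∈ S) := hnev a b Ya hYa Yb hYb ha hab hb hba
  have haI : a ∈ I := H.sub Ya (mem_Zf.1 hYa).1 ha
  have hbI : b ∈ I := H.sub Yb (mem_Zf.1 hYb).1 hb
  have mYc := mem_Zf.1 hYc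
  have mYa := mem_Zf.1 hYa
  have hai : a ≠ i := by
    rintro rfl
    exact mYa.2.1 ha
  have hjc : j ∉ Yc := by
    intro hjc
    have hja : j ∈ Ya := hcon Yc Ya hYc hYa hjc
    have h := (H.fg.2.2 a i j Yc Ya (insert i Yc) (insert i Ya) mYc.1 mYa.1 mYc.2.2 mYa.2.2
      ⟨hac, mYc.2.1⟩ ⟨ha, mYa.2.1⟩
      ⟨by simp [hai, hac], by simp⟩ ⟨by simp [ha], by simp⟩).1
      ⟨hjc, hja, by simp [hjc], by simp [hja]⟩
    rw [H.ho j hj] at h
    linarith [H.h1]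
  have h := hAE ι F o τ i a b j Yc Ya Yb h13 H.h1 H.fg hYc hYa hYb ha hac hab hb hbc hba
    (H.ho i hi) (H.ho a haI) (H.ho b hbI) hnn hne
    ⟨fun h => hcon Ya Yc hYa hYc h, fun h => hcon Yc Ya hYc hYa h⟩
    ⟨fun h => hcon Yb Yc hYb hYc h, fun h => hcon Yc Yb hYc hYb h⟩
    (H.ho j hj).ge (by rw [H.ho j hj]; exact H.h1.le) S hS hiS
  exact hjc (h.1 hjS)

/-- two rows never together -/
theorem not_mem_of_never {a b : ι} (h : ∀ S ∈ F, ¬ (a ∈ S ∧ b ∈ S)) {Y : Finset ι}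
    (hY : Y ∈ Zf a F) : b ∉ Y := by
  intro hb
  exact h _ (mem_Zf.1 hY).2.2 ⟨by simp, by simp [hb]⟩

/-- for three rows of a member -/
theorem third (hAP : S_AP) (hAE : S_AE) (H : Hyp I F o τ) {x y z : ι} (hy : y ≠ x) (hz : z ≠ x)
    {S : Finset ι} (hS : S ∈ F) (hxS : x ∈ S) (hyS : y ∈ S) (hzS : z ∈ S) :
    ∃ Y ∈ Zf x F, y ∉ Y ∧ z ∉ Y := by
  have hx : x ∈ I := H.sub S hS hxS
  obtain ⟨h13, -, hu, hnev⟩ := facts hAP H hx
  obtain ⟨Y₁, Y₂, hY₁, hY₂, y1, y2⟩ := nb hAP hAE H hy hS hxS hyS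
  obtain ⟨Z₁, Z₂, hZ₁, hZ₂, z1, z2⟩ := nb hAP hAE H hz hS hxS hzS
  obtain ⟨h, Yh, Y₀, hYh, hY₀, hyh, hy0, hh, -, -, -⟩ := others hAP H hx hY₁ y1 ⟨Y₂, hY₂, y2⟩
  by_cases hz0 : z ∈ Y₀
  · exfalso
    have hz1 : z ∉ Y₁ := by
      intro hzz
      have e1 := hu z Z₁ hZ₁ Z₂ hZ₂ z1 z2 Y₁ hY₁ hzz
      have e2 := hu z Z₁ hZ₁ Z₂ hZ₂ z1 z2 Y₀ hY₀ hz0
      rw [e2, ← e1] at hy0
      exact hy0 y1
    exact hnev y z Y₁ hY₁ Y₀ hY₀ y1 hy0 hz0 hz1 S hS ⟨hyS, hzS⟩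
  · exact ⟨Y₀, hY₀, hy0, hz0⟩

/-- no three rows in a member -/
theorem no_three (hAP : S_AP) (hAE : S_AE) (H : Hyp I F o τ) {x y z : ι} (hxy : x ≠ y)
    (hxz : x ≠ z) (hyz : y ≠ z) {S : Finset ι} (hS : S ∈ F) (hxS : x ∈ S) (hyS : y ∈ S)
    (hzS : z ∈ S) : False := by
  obtain ⟨A, hA, a1, a2⟩ := third hAP hAE H hxy.symm hxz.symm hS hxS hyS hzS
  obtain ⟨B, hB, b1, b2⟩ := third hAP hAE H hxy hyz.symm hS hyS hxS hzS
  obtain ⟨C, hC, c1, c2⟩ := third hAP hAE H hxz hyz hS hzS hxS hyS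
  refine no_four H.fg.2.1 x y z S (insert x A) (insert y B) (insert z C) hS (mem_Zf.1 hA).2.2
    (mem_Zf.1 hB).2.2 (mem_Zf.1 hC).2.2 hxS hyS hzS ?_ ?_ ?_ ?_ ?_ ?_ ?_ ?_ ?_ <;>
  simp [*, hxy.symm, hxz.symm, hyz.symm]

theorem card_le_two (hAP : S_AP) (hAE : S_AE) (H : Hyp I F o τ) {S : Finset ι} (hS : S ∈ F) :
    S.card ≤ 2 := by
  by_contra hcon
  push Not at hcon
  obtain ⟨x, hx, y, hy, z, hz, hxy, hxz, hyz⟩ := Finset.two_lt_card.1 hcon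
  exact no_three hAP hAE H hxy hxz hyz hS hx hy hz

theorem card_Zf (hAP : S_AP) (hAE : S_AE) (H : Hyp I F o τ) {i : ι} {Y : Finset ι}
    (hY : Y ∈ Zf i F) : Y.card ≤ 1 := by
  have h := card_le_two hAP hAE H (mem_Zf.1 hY).2.2
  rw [Finset.card_insert_of_notMem (mem_Zf.1 hY).2.1] at h
  omega

/-- the empty set is in `Zf i F` -/
theorem empty_mem (hAP : S_AP) (hAE : S_AE) (H : Hyp I F o τ) {i : ι} (hi : i ∈ I) :
    ∅ ∈ Zf i F := by
  by_contra hemp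
  obtain ⟨h13, -, hu, hnev⟩ := facts hAP H hi
  obtain ⟨a, Ya, Y', hYa, hY', ha, ha'⟩ := ex_nb H hi
  obtain ⟨b, Yb, Yc, hYb, hYc, hab, hac, hb, hba, hbc, hall⟩ :=
    others hAP H hi hYa ha ⟨Y', hY', ha'⟩
  have hYc0 : Yc.Nonempty := by
    rw [Finset.nonempty_iff_ne_empty]
    rintro rfl
    exact hemp hYc
  obtain ⟨g, hg⟩ := hYc0
  have one : ∀ {i : ι} {Y : Finset ι} {x y : ι}, Y ∈ Zf i F → x ∈ Y → y ∈ Y → x = y := by
    intro i Y x y hY hx hy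
    exact Finset.card_le_one.1 (card_Zf hAP hAE H hY) x hx y hy
  have hga : g ∉ Ya := by
    intro h
    have := one hYa ha h
    rw [this] at hac
    exact hac hg
  have hgb : g ∉ Yb := by
    intro h
    have := one hYb hb h
    rw [this] at hbc
    exact hbc hg
  have nab : ∀ S ∈ F, ¬ (a ∈ S ∧ b ∈ S) := hnev a b Ya hYa Yb hYb ha hab hb hba
  have nag : ∀ S ∈ F, ¬ (a ∈ S ∧ g ∈ S) := hnev a g Ya hYa Yc hYc ha hac hg hga
  have mYa := mem_Zf.1 hYa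
  have mYb := mem_Zf.1 hYb
  have mYc := mem_Zf.1 hYc
  have haI : a ∈ I := H.sub Ya mYa.1 ha
  have hbI : b ∈ I := H.sub Yb mYb.1 hb
  have hgI : g ∈ I := H.sub Yc mYc.1 hg
  have hia : i ≠ a := by
    rintro rfl
    exact mYa.2.1 ha
  obtain ⟨-, -, -, hnev'⟩ := facts hAP H haI
  obtain ⟨Yi, Y₂, hYi, hY₂, i1, i2⟩ := nb hAP hAE H hia mYa.2.2 (by simp [ha]) (by simp)
  obtain ⟨h, Yh, Y₀, hYh, hY₀, hih, hi0, hh, hhi, hh0, -⟩ :=
    others hAP H haI hYi i1 ⟨Y₂, hY₂, i2⟩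
  have nih : ∀ S ∈ F, ¬ (i ∈ S ∧ h ∈ S) := hnev' i h Yi hYi Yh hYh i1 hih hh hhi
  have mYi := mem_Zf.1 hYi
  have mYh := mem_Zf.1 hYh
  have mY₀ := mem_Zf.1 hY₀
  have hhI : h ∈ I := H.sub Yh mYh.1 hh
  have hha : h ≠ a := by
    rintro rfl
    exact mYh.2.1 hh
  have hba' : b ≠ a := by
    rintro rfl
    exact hba ha
  have hga' : g ≠ a := by
    rintro rfl
    exact hga ha
  have b0 := not_mem_of_never nab hY₀
  have bi := not_mem_of_never nab hYi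
  have bh := not_mem_of_never nab hYh
  have g0 := not_mem_of_never nag hY₀
  have gi := not_mem_of_never nag hYi
  have gh := not_mem_of_never nag hYh
  have hhb := not_mem_of_never nih hYb
  have hhc := not_mem_of_never nih hYc
  have hlt := simplex_bound H.fg.1 5 ![a, b, g, i, h] ![Y₀, insert a Y₀, Yb, Yc, Yi, Yh] (by
      intro j
      fin_cases j <;> simp [mY₀, mYb, mYc, mYi, mYh]) (by
      intro x y
      fin_cases x <;> fin_cases y <;>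
        simp [*, mY₀.2.1, mYb.2.1, mYc.2.1, mYi.2.1, mYh.2.1]) (by
      intro x
      fin_cases x <;> simp [H.ho a haI, H.ho b hbI, H.ho g hgI, H.ho i hi, H.ho h hhI])
  norm_num at hlt
  linarith

/-- the members containing `i` -/
theorem card_cont (hAP : S_AP) (hAE : S_AE) (H : Hyp I F o τ) {i : ι} (hi : i ∈ I) :
    (F.filter (fun S => i ∈ S)).card ≤ 3 := by
  obtain ⟨-, h3, -, -⟩ := facts hAP H hi
  rw [← h3]
  refine Finset.card_le_card_of_injOn (fun S => S.erase i) ?_ ?_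
  · intro S hS
    simp only [Finset.coe_filter, Set.mem_ofPred_eq] at hS
    simp only [Finset.mem_coe]
    have hc := card_le_two hAP hAE H hS.1
    have hc1 : (S.erase i).card ≤ 1 := by
      rw [Finset.card_erase_of_mem hS.2]
      omega
    by_cases he : S.erase i = ∅
    · rw [he]
      exact empty_mem hAP hAE H hi
    · obtain ⟨j, hj⟩ := Finset.nonempty_iff_ne_empty.2 he
      have hj' := Finset.mem_erase.1 hj
      obtain ⟨Y, -, hY, -, y1, -⟩ := nb hAP hAE H hj'.1 hS.1 hS.2 hj'.2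
      have hc2 := card_Zf hAP hAE H hY
      have e1 : S.erase i = {j} := Finset.eq_singleton_iff_unique_mem.2
        ⟨hj, fun x hx => Finset.card_le_one.1 hc1 x hx j hj⟩
      have e2 : Y = {j} := Finset.eq_singleton_iff_unique_mem.2
        ⟨y1, fun x hx => Finset.card_le_one.1 hc2 x hx j y1⟩
      rw [e1, ← e2]
      exact hY
  · intro S hS T hT hST
    simp only [Finset.coe_filter, Set.mem_ofPred_eq] at hS hT
    simp only at hST
    rw [← Finset.insert_erase hS.2, ← Finset.insert_erase hT.2, hST]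

end Afin

open Afin in
/-- the final case -/
theorem main (h1 : S_AP) (h2 : S_AE) : S_AFIN := by
  intro ι I F o τ t0 t1 hfg hsub ho hZ
  have H : Hyp I F o τ := ⟨t0, t1, hfg, hsub, ho, hZ⟩
  have e1 : ∑ S ∈ F, S.card ≤ 3 * I.card := by
    have : ∑ S ∈ F, S.card = ∑ i ∈ I, (F.filter (fun S => i ∈ S)).card := by
      have h3 : ∀ S ∈ F, S.card = ∑ i ∈ I, if i ∈ S then 1 else 0 := by
        intro S hS
        rw [← Finset.card_filter]
        congr 1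
        ext x
        simp only [Finset.mem_filter]
        exact ⟨fun h => ⟨hsub S hS h, h⟩, fun h => h.2⟩
      rw [Finset.sum_congr rfl h3, Finset.sum_comm]
      refine Finset.sum_congr rfl fun i _ => ?_
      rw [Finset.card_filter]
    rw [this]
    calc ∑ i ∈ I, (F.filter (fun S => i ∈ S)).card ≤ ∑ i ∈ I, 3 :=
          Finset.sum_le_sum fun i hi => card_cont h1 h2 H hi
      _ = 3 * I.card := by simp [mul_comm]
  have e2 : (F.filter (fun S => S.card = 1)).card ≤ I.card := by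
    have : F.filter (fun S => S.card = 1) ⊆ I.powersetCard 1 := by
      intro S hS
      rw [Finset.mem_filter] at hS
      exact Finset.mem_powersetCard.2 ⟨hsub S hS.1, hS.2⟩
    refine (Finset.card_le_card this).trans ?_
    rw [Finset.card_powersetCard, Nat.choose_one_right]
  have e3 : (F.filter (fun S => S.card = 0)).card ≤ 1 := by
    have : F.filter (fun S => S.card = 0) ⊆ {∅} := by
      intro S hS
      rw [Finset.mem_filter, Finset.card_eq_zero] at hS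
      simp [hS.2]
    exact (Finset.card_le_card this).trans (by simp)
  have e4 : 2 * F.card ≤ ∑ S ∈ F, S.card + (F.filter (fun S => S.card = 1)).card +
      2 * (F.filter (fun S => S.card = 0)).card := by
    rw [Finset.card_filter, Finset.card_filter, Finset.mul_sum, ← Finset.sum_add_distrib,
      ← Finset.sum_add_distrib, mul_comm, ← smul_eq_mul, ← Finset.sum_const]
    refine Finset.sum_le_sum fun S _ => ?_
    rcases Nat.lt_or_ge S.card 2 with h | h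
    · interval_cases S.card <;> simp
    · omega
  omega

end Pool.Agent.W490.SH
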